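import Mathlib
import Pool.Agent.Helper86.Caching.Defs
import Pool.Agent.Helper86.Caching.Upper

/-!
# Minimax regret of online caching of inelastic contents: matching bounds for every network

For every right `d`-regular bipartite network with `N ≥ 2 C |J|` and every horizon `T ≥ 1`,
`R*_T` equals `∑_i min {T, √(C T deg i)}` up to a factor between `1/(8 d²)` and `1`, where `deg i`
is the number of caches adjacent to user `i`.
-/

namespace Pool.Agent.Results.MP_887eca_lc.MinimaxOrder

open Pool.Agent.Helper86.Caching Finset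

/-- The minimax regret of a right `d`-regular network is of exact order
`∑_i min {T, √(C T deg i)}`, with constants depending only on `d`. -/
theorem result {I J : Type} [Fintype I] [Fintype J] [Nonempty J] (adj : I → J → Prop)
    [∀ i j, Decidable (adj i j)] {d C N T : ℕ} (hd : 0 < d) (hC : 0 < C) (hT : 0 < T)
    (hreg : ∀ j, #{i | adj i j} = d) (hN : 2 * C * Fintype.card J ≤ N) :
    1 / (8 * (d : ℝ) ^ 2) * ∑ i, min (T : ℝ) (Real.sqrt (C * T * userDeg adj i)) ≤
        minimaxRegret adj N C T ∧
      minimaxRegret adj N C T ≤ ∑ i, min (T : ℝ) (Real.sqrt (C * T * userDeg adj i)) := by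
  have hJ : 0 < Fintype.card J := Fintype.card_pos
  obtain ⟨π, hπ⟩ := upper_bound adj (N := N) hC hT
  have hlow : ∀ π : Policy I J N C,
      1 / (8 * (d : ℝ) ^ 2) * ∑ i, min (T : ℝ) (Real.sqrt (C * T * userDeg adj i)) ≤
        regret adj T π := fun π => lower_bound adj hd hC hJ hreg hN π
  have : Nonempty (Policy I J N C) := ⟨π⟩
  have hbdd : BddBelow (Set.range fun π : Policy I J N C => regret adj T π) := by
    refine ⟨1 / (8 * (d : ℝ) ^ 2) * ∑ i, min (T : ℝ) (Real.sqrt (C * T * userDeg adj i)), ?_⟩
    rintro _ ⟨π', rfl⟩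
    exact hlow π'
  exact ⟨le_ciInf hlow, (ciInf_le hbdd π).trans hπ⟩

end Pool.Agent.Results.MP_887eca_lc.MinimaxOrder
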